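import Mathlib
import Pool.Agent.H421_CMO.Fn
import Pool.Agent.H421_CMO.Lz

set_option autoImplicit false

open Filter Topology

namespace Pool.Agent.Results.MP_768c9c_nt.RhAlternative

/-- Either some CMO function has partial sums `O (N ^ (-1/2 - c))` with `c > 0` (so the answer to the
question of Kahane and Saias is negative), or the Riemann Hypothesis is false while no `L (s, χ)`
with `χ` non-principal has a zero to the right of `Re s = 1/2`. -/
theorem result :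
    (∃ f : ℕ → ℂ,
      f 1 = 1 ∧
      (∀ m n : ℕ, 0 < m → 0 < n → f (m * n) = f m * f n) ∧
      Tendsto (fun N : ℕ => ∑ n ∈ Finset.range N, f (n + 1)) atTop (𝓝 0) ∧
      ∃ c C : ℝ, 0 < c ∧ ∀ N : ℕ, 1 ≤ N →
        ‖∑ n ∈ Finset.Icc 1 N, f n‖ ≤ C * (N : ℝ) ^ (-(1 / 2 : ℝ) - c)) ∨
    (¬ RiemannHypothesis ∧
      ∀ (q : ℕ) [NeZero q] (χ : DirichletCharacter ℂ q), χ ≠ 1 →
        ∀ s : ℂ, DirichletCharacter.LFunction χ s = 0 → s.re ≤ 1 / 2) := by
  have key : ∀ f : ℕ → ℂ, ∀ c C : ℝ, 0 < c → (∀ N : ℕ, 1 ≤ N →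
      ‖∑ n ∈ Finset.Icc 1 N, f n‖ ≤ C * (N : ℝ) ^ (-(1 / 2 : ℝ) - c)) →
      Tendsto (fun N : ℕ => ∑ n ∈ Finset.range N, f (n + 1)) atTop (𝓝 0) := by
    intro f c C hc hb
    rw [tendsto_zero_iff_norm_tendsto_zero]
    have h1 : Tendsto (fun N : ℕ => C * (N : ℝ) ^ (-(1 / 2 : ℝ) - c)) atTop (𝓝 0) := by
      have h2 := ((tendsto_rpow_neg_atTop (show 0 < 1 / 2 + c by positivity)).comp
        tendsto_natCast_atTop_atTop).const_mul C
      rw [mul_zero] at h2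
      refine h2.congr fun N => ?_
      rw [show -(1 / 2 : ℝ) - c = -(1 / 2 + c) by ring]
      rfl
    refine squeeze_zero' (Eventually.of_forall fun _ => norm_nonneg _) ?_ h1
    filter_upwards [eventually_ge_atTop 1] with N hN
    refine le_of_eq_of_le ?_ (hb N hN)
    congr 1
    rw [Finset.range_eq_Ico, Finset.sum_Ico_add' f 0 N 1]
    rfl
  by_cases hRH : RiemannHypothesis
  · left
    obtain ⟨g, h1, hmul, c, C, hc, _, hb⟩ := Pool.Agent.H421.CMO.rh_cmo hRH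
    have hb' : ∀ N : ℕ, 1 ≤ N →
        ‖∑ n ∈ Finset.Icc 1 N, ((g n : ℝ) : ℂ)‖ ≤ C * (N : ℝ) ^ (-(1 / 2 : ℝ) - c) := by
      intro N hN
      rw [← Complex.ofReal_sum, Complex.norm_real, Real.norm_eq_abs]
      exact hb N hN
    refine ⟨fun n => ((g n : ℝ) : ℂ), ?_, ?_, key _ c C hc hb', c, C, hc, hb'⟩
    · show ((g 1 : ℝ) : ℂ) = 1
      rw [h1, Complex.ofReal_one]
    · intro m n hm hn
      show ((g (m * n) : ℝ) : ℂ) = ((g m : ℝ) : ℂ) * ((g n : ℝ) : ℂ)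
      rw [hmul m n hm hn, Complex.ofReal_mul]
  · by_cases hL : ∀ (q : ℕ) [NeZero q] (χ : DirichletCharacter ℂ q), χ ≠ 1 →
        ∀ s : ℂ, DirichletCharacter.LFunction χ s = 0 → s.re ≤ 1 / 2
    · exact Or.inr ⟨hRH, hL⟩
    · left
      push Not at hL
      obtain ⟨q, hq, χ, hχ, s, hs, hs2⟩ := hL
      have hs0 : 0 < s.re := by linarith
      have hb' : ∀ N : ℕ, 1 ≤ N →
          ‖∑ n ∈ Finset.Icc 1 N, χ (n : ZMod q) * (n : ℂ) ^ (-s)‖ ≤
            ‖s‖ * (2 * (q + 1) / s.re) * (N : ℝ) ^ (-(1 / 2 : ℝ) - (s.re - 1 / 2)) := by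
        intro N hN
        rw [show -(1 / 2 : ℝ) - (s.re - 1 / 2) = -s.re by ring]
        exact Pool.Agent.H421.CMO.lzero_bound hχ hs0 hs hN
      refine ⟨fun n => χ (n : ZMod q) * (n : ℂ) ^ (-s), ?_, ?_,
        key _ (s.re - 1 / 2) _ (by linarith) hb', s.re - 1 / 2, _, by linarith, hb'⟩
      · simp
      · intro m n _ _
        push_cast
        rw [map_mul, Complex.natCast_mul_natCast_cpow]
        ring

end Pool.Agent.Results.MP_768c9c_nt.RhAlternative
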